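import Pool.Agent.ZPC.P.ZPS.Obj

/-!
# ZPS: the complex points of a semi-abelian variety with the Zariski topology
-/

set_option autoImplicit false

open scoped BigOperators

namespace Pool.Agent.ZPC


variable {k₀ : Type} [Field k₀] [CharZero k₀] [IsAlgClosed k₀] [Algebra k₀ ℂ]



/-- The complex points of the semi-abelian variety. -/
def PtS (G : SV k₀) : Type := G.Pt ℂ

noncomputable instance (G : SV k₀) : AddCommGroup (PtS G) := inferInstanceAs (AddCommGroup (G.Pt ℂ))

/-- The homogeneous coordinates of a point `(P, u)`: the coordinates of `P` and, for each `l`, the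
coordinates of `P + 2 b_l` multiplied with `u_l`. -/
noncomputable def SV.crd {G : SV k₀} (P : PtS G) : Option G.L × Fin (G.A.n + 1) → ℂ :=
  fun p => p.1.elim ((show G.Pt ℂ from P).b.v p.2) fun l => G.yc (show G.Pt ℂ from P) l p.2

/-- The value of a polynomial in the homogeneous coordinates of the point. -/
noncomputable def SV.hval {G : SV k₀} (P : PtS G)
    (F : MvPolynomial (Option G.L × Fin (G.A.n + 1)) ℂ) : ℂ := MvPolynomial.eval (SV.crd P) F

/-- The Zariski topology: the closed sets are the sets of common zeros of homogeneous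
polynomials. -/
instance (G : SV k₀) : TopologicalSpace (PtS G) :=
  TopologicalSpace.ofClosed {Z | ∃ S : Set (MvPolynomial (Option G.L × Fin (G.A.n + 1)) ℂ),
      (∀ F ∈ S, ∃ d, F.IsHomogeneous d) ∧ Z = {P | ∀ F ∈ S, SV.hval P F = 0}}
    (by
      refine ⟨{1}, ?_, ?_⟩
      · rintro F rfl
        exact ⟨0, MvPolynomial.isHomogeneous_one _ _⟩
      · ext P
        simp [SV.hval])
    (by
      intro A hA
      refine ⟨⋃ Z ∈ A, {F | (∃ d, F.IsHomogeneous d) ∧ ∀ P ∈ Z, SV.hval P F = 0}, ?_, ?_⟩
      · intro F hF
        simp only [Set.mem_iUnion] at hF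
        obtain ⟨Z, hZ, h1, -⟩ := hF
        exact h1
      · ext P
        constructor
        · intro h F hF
          simp only [Set.mem_iUnion] at hF
          obtain ⟨Z, hZ, -, h2⟩ := hF
          exact h2 P (h Z hZ)
        · intro h Z hZ
          obtain ⟨S, hS, rfl⟩ := hA hZ
          intro F hF
          refine h F ?_
          simp only [Set.mem_iUnion]
          exact ⟨_, hZ, hS F hF, fun P' hP' => hP' F hF⟩)
    (by
      rintro _ ⟨S, hS, rfl⟩ _ ⟨S', hS', rfl⟩
      refine ⟨{H | ∃ F ∈ S, ∃ G ∈ S', H = F * G}, ?_, ?_⟩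
      · rintro _ ⟨F, hF, G, hG, rfl⟩
        obtain ⟨d, hd⟩ := hS F hF
        obtain ⟨d', hd'⟩ := hS' G hG
        exact ⟨d + d', hd.mul hd'⟩
      · ext P
        constructor
        · rintro (h | h) _ ⟨F, hF, G, hG, rfl⟩
          · have h1 : SV.hval P F = 0 := h F hF
            unfold SV.hval at h1 ⊢
            rw [map_mul, h1, zero_mul]
          · have h1 : SV.hval P G = 0 := h G hG
            unfold SV.hval at h1 ⊢
            rw [map_mul, h1, mul_zero]
        · intro h
          by_contra hcon
          have h1 : ¬ (∀ F ∈ S, SV.hval P F = 0) := fun h' => hcon (Or.inl h')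
          have h2 : ¬ (∀ F ∈ S', SV.hval P F = 0) := fun h' => hcon (Or.inr h')
          push Not at h1 h2
          obtain ⟨F, hF, hF'⟩ := h1
          obtain ⟨G, hG, hG'⟩ := h2
          have h3 := h _ ⟨F, hF, G, hG, rfl⟩
          unfold SV.hval at h3 hF' hG'
          rw [map_mul] at h3
          exact (mul_ne_zero hF' hG') h3)

end Pool.Agent.ZPC
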